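import Mathlib
import Pool.Agent.W917.Flip.FinCase

/-!
# MP_3937af_lc, Q1: an automorphism nontrivial on every cocountable set
-/

namespace Pool.Agent.Results.MP_3937af_lc.NowhereTrivial

open Cardinal Pool.Agent.H65R3.Forc Pool.Agent.W917.Flip

/-- For every uncountable cardinal `κ` there is a nonempty forcing notion `P`, every condition of
which forces that `κ` is still a cardinal, that `κ` is uncountable, and that the quotient of the
power set of `κ` by the ideal of the finite sets has an automorphism which is not trivial on any
subset of `κ` with countable complement. -/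
theorem result (κ : Cardinal.{0}) (hκ : ℵ₀ < κ) :
    ∃ (P : Type) (_ : Preorder P), Nonempty P ∧ ∀ p : P,
      p ∈ StaysCardinal P κ ∧ p ∈ fnot (CtblSet fun _ : K κ => fground True) ∧
        p ∈ HasAutFin P (K κ) := by
  refine ⟨Pool.Agent.H631R2.Cond (K κ), inferInstance, ⟨⟨∅, by simp⟩⟩, fun p => ⟨?_, ?_, ?_⟩⟩
  · exact staysCardinal hκ.le p
  · exact not_inj (Y := ℕ) (by simp) (by rw [mk_K]; simpa using hκ) p
  · exact mem_fex_of_mem (TT (K κ)) (down_fand
      (down_fand (down_fand (down_fall fun _ => down_fex _) (down_fall fun _ => down_fex _))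
        (down_fall fun _ => down_fall fun _ => down_fall fun _ => down_fall fun _ =>
          down_fimp _ _))
      (down_fall fun _ => down_fimp _ _))
      ⟨isAut_TT ideal_fin finSet_eq p, fin_nontrivial (by rw [mk_K]; exact not_le.2 hκ) p⟩

end Pool.Agent.Results.MP_3937af_lc.NowhereTrivial
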